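import Mathlib
import Pool.Agent.Q99.UD.Univ

/-!
# A universal BPBp-ASE domain that is not uniformly convex
-/

set_option autoImplicit false

namespace Pool.Agent.Results.MP_78fc4b_an.NotUniformlyConvex

universe v

/-- For each of the scalar fields `ℝ`, `ℂ` there is a three-dimensional normed space which is a universal domain for the
Bishop-Phelps-Bollobás property for absolutely strongly exposing operators and is not uniformly convex. -/
theorem result (𝕜 : Type) [RCLike 𝕜] :
    ∃ (X : Type) (_ : NormedAddCommGroup X) (_ : NormedSpace 𝕜 X) (_ : CompleteSpace X),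
      Module.finrank 𝕜 X = 3 ∧ Q99.UD.UniversalDomain.{v} 𝕜 X ∧ ¬ Q99.UD.UniformlyConvex X :=
  ⟨Q99.UD.X3 𝕜, inferInstance, inferInstance, inferInstance, Q99.UD.finrank_X3, Q99.UD.univ_domain, Q99.UD.not_uc⟩

end Pool.Agent.Results.MP_78fc4b_an.NotUniformlyConvex
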